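import Mathlib

set_option autoImplicit false
open MeasureTheory Set Filter Topology Real
open scoped ENNReal

namespace Pool.Agent.H.MP_897d6b_pr

def LC (f : ℝ → ℝ) : Prop :=
  ∀ x y t : ℝ, 0 ≤ t → t ≤ 1 → f x ^ t * f y ^ (1 - t) ≤ f (t * x + (1 - t) * y)

lemma rp {a t : ℝ} (ha : 0 ≤ a) : a ^ t * a ^ (1 - t) = a := by
  rw [← rpow_add' ha (by ring_nf; norm_num)]; simp

lemma tp2 {f : ℝ → ℝ} (h0 : ∀ x, 0 ≤ f x) (h : LC f) {u v m : ℝ} (huv : u ≤ v) (hm : 0 ≤ m) :
    f u * f (v + m) ≤ f (u + m) * f v := by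
  rcases hm.eq_or_lt with rfl | hm'
  · simp
  have hL : 0 < v + m - u := by linarith
  have t0 : 0 ≤ m / (v + m - u) := by positivity
  have t1 : m / (v + m - u) ≤ 1 := (div_le_one hL).mpr (by linarith)
  have a := h (v + m) u _ t0 t1
  have b := h u (v + m) _ t0 t1
  rw [show m / (v + m - u) * (v + m) + (1 - m / (v + m - u)) * u = u + m by field_simp; ring] at a
  rw [show m / (v + m - u) * u + (1 - m / (v + m - u)) * (v + m) = v by field_simp; ring] at b
  have c := mul_le_mul a b (mul_nonneg (rpow_nonneg (h0 _) _) (rpow_nonneg (h0 _) _)) (h0 _)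
  calc f u * f (v + m) = (f u ^ (m / (v + m - u)) * f u ^ (1 - m / (v + m - u))) *
        (f (v + m) ^ (m / (v + m - u)) * f (v + m) ^ (1 - m / (v + m - u))) := by
        rw [rp (h0 _), rp (h0 _)]
    _ = _ := by ring
    _ ≤ _ := c

lemma oc {f : ℝ → ℝ} (h : LC f) {l : ℝ} (hl : 0 < l) : OrdConnected {x | l ≤ f x} := by
  rw [← convex_iff_ordConnected]
  intro x hx y hy a b ha hb hab
  have := h x y a ha (by linarith)
  rw [show b = 1 - a by linarith]
  refine le_trans ?_ this
  rw [← rp (t := a) hl.le]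
  exact mul_le_mul (rpow_le_rpow hl.le hx ha) (rpow_le_rpow hl.le hy (by linarith))
    (rpow_nonneg hl.le _) (rpow_nonneg (hl.le.trans hx) _)

lemma meas {f : ℝ → ℝ} (h0 : ∀ x, 0 ≤ f x) (h : LC f) : Measurable f := by
  refine measurable_of_Ici fun c => ?_
  rcases le_or_gt c 0 with hc | hc
  · have : f ⁻¹' Ici c = univ := eq_univ_of_forall fun x => hc.trans (h0 x)
    rw [this]; exact MeasurableSet.univ
  · exact (oc h hc).measurableSet

lemma mid {f : ℝ → ℝ} (h : LC f) (x y : ℝ) : √(f x) * √(f y) ≤ f ((1/2) * x + (1/2) * y) := by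
  have := h x y (1/2) (by norm_num) (by norm_num)
  rw [sqrt_eq_rpow, sqrt_eq_rpow]
  norm_num at this ⊢
  exact this

lemma int_mid {f : ℝ → ℝ} (hi : Integrable f) (h1 : ∫ x, f x = 1) (y : ℝ) :
    Integrable (fun x => f ((1/2) * x + (1/2) * y)) ∧ ∫ x, f ((1/2) * x + (1/2) * y) = 2 := by
  have a : Integrable (fun x => f (x + (1/2) * y)) := hi.comp_add_right _
  refine ⟨a.comp_mul_left' (R := 1/2) (by norm_num), ?_⟩
  have := Measure.integral_comp_mul_left (fun x => f (x + (1/2) * y)) (1/2)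
  rw [this, integral_add_right_eq_self (fun x => f x), h1]
  norm_num

lemma basic {f : ℝ → ℝ} (h0 : ∀ x, 0 ≤ f x) (hi : Integrable f) (h1 : ∫ x, f x = 1) (h : LC f) :
    Integrable (fun x => √(f x)) ∧ ∃ M, 0 < M ∧ ∀ x, f x ≤ M := by
  have mf := meas h0 h
  obtain ⟨y, hy⟩ : ∃ y, 0 < f y := by
    by_contra hc
    push Not at hc
    have : f = fun _ => 0 := funext fun x => le_antisymm (hc x) (h0 x)
    rw [this] at h1; simp at h1
  have sy := sqrt_pos.mpr hy
  have i1 : Integrable (fun x => √(f x)) := by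
    refine ((int_mid hi h1 y).1.div_const √(f y)).mono' mf.sqrt.aestronglyMeasurable
      (ae_of_all _ fun x => ?_)
    rw [Real.norm_of_nonneg (sqrt_nonneg _), le_div_iff₀ sy]
    exact mid h x y
  have p : 0 < ∫ x, √(f x) := by
    rcases (integral_nonneg (μ := volume) (f := fun x => √(f x)) fun x => sqrt_nonneg _).eq_or_lt
      with e | e
    · have := (integral_eq_zero_iff_of_nonneg (fun x => sqrt_nonneg (f x)) i1).mp e.symm
      have z : f =ᵐ[volume] 0 := by
        filter_upwards [this] with x hx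
        exact le_antisymm (sqrt_eq_zero'.mp hx) (h0 x)
      rw [integral_congr_ae z] at h1; simp at h1
    · exact e
  refine ⟨i1, (2 / ∫ x, √(f x)) ^ 2, by positivity, fun y => ?_⟩
  have a := integral_mono (i1.mul_const √(f y)) (int_mid hi h1 y).1 fun x => mid h x y
  rw [integral_mul_const, (int_mid hi h1 y).2] at a
  have b : √(f y) ≤ 2 / ∫ x, √(f x) := by rw [le_div_iff₀ p]; linarith
  rw [← sq_sqrt (h0 y)]
  exact pow_le_pow_left₀ (sqrt_nonneg _) b 2

noncomputable def mu (f : ℝ → ℝ) : Measure ℝ := volume.withDensity fun x => ENNReal.ofReal (f x)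

lemma mu_prob {f : ℝ → ℝ} (h0 : ∀ x, 0 ≤ f x) (hi : Integrable f) (h1 : ∫ x, f x = 1) :
    IsProbabilityMeasure (mu f) := by
  constructor
  rw [mu, withDensity_apply _ MeasurableSet.univ, Measure.restrict_univ,
    ← ofReal_integral_eq_lintegral_ofReal hi (ae_of_all _ h0), h1, ENNReal.ofReal_one]

instance (f : ℝ → ℝ) : NullSingletonClass (mu f) := by unfold mu; infer_instance
instance (f : ℝ → ℝ) : SFinite (mu f) := by unfold mu; infer_instance

lemma mu_shift {f : ℝ → ℝ} {s : Set ℝ} (hs : MeasurableSet s) (m : ℝ) :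
    mu f ((fun x => x - m) ⁻¹' s) = ∫⁻ x in s, ENNReal.ofReal (f (x + m)) := by
  have hs' : MeasurableSet ((fun x => x - m) ⁻¹' s) := (measurable_id.sub_const m) hs
  rw [mu, withDensity_apply _ hs', ← lintegral_indicator hs', ← lintegral_indicator hs,
    ← lintegral_add_right_eq_self _ m]
  refine lintegral_congr fun x => ?_
  by_cases hx : x ∈ s <;> simp [indicator, hx]

lemma ifr {f : ℝ → ℝ} (h0 : ∀ x, 0 ≤ f x) (h : LC f) {a y m : ℝ} (hay : a ≤ y) (hm : 0 ≤ m) :
    mu f (Ici (y + m)) * mu f (Ici a) ≤ mu f (Ici (a + m)) * mu f (Ici y) := by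
  have mf := meas h0 h
  have sp : ∀ {c d : ℝ}, c ≤ d → mu f (Ici c) = mu f (Ici d) + mu f (Ico c d) := by
    intro c d hcd
    rw [← measure_union _ measurableSet_Ico, union_comm, Ico_union_Ici_eq_Ici hcd]
    exact disjoint_left.mpr fun x h1 h2 => absurd h2.2 (not_lt.mpr h1)
  rw [sp hay, sp (show a + m ≤ y + m by linarith), mul_add, add_mul]
  refine add_le_add le_rfl ?_
  have e1 : mu f (Ici (y + m)) = ∫⁻ v in Ici y, ENNReal.ofReal (f (v + m)) := by
    rw [← mu_shift measurableSet_Ici]; congr 1; ext x; simp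
  have e2 : mu f (Ico (a + m) (y + m)) = ∫⁻ u in Ico a y, ENNReal.ofReal (f (u + m)) := by
    rw [← mu_shift measurableSet_Ico]; congr 1; ext x; simp
  have e3 : mu f (Ico a y) = ∫⁻ u in Ico a y, ENNReal.ofReal (f u) :=
    withDensity_apply _ measurableSet_Ico
  have e4 : mu f (Ici y) = ∫⁻ u in Ici y, ENNReal.ofReal (f u) :=
    withDensity_apply _ measurableSet_Ici
  rw [e1, e2, e3, e4, mul_comm, ← lintegral_lintegral_mul (by fun_prop) (by fun_prop),
    ← lintegral_lintegral_mul (by fun_prop) (by fun_prop)]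
  refine setLIntegral_mono' measurableSet_Ico fun u hu => ?_
  refine setLIntegral_mono' measurableSet_Ici fun v hv => ?_
  rw [← ENNReal.ofReal_mul (h0 _), ← ENNReal.ofReal_mul (h0 _)]
  exact ENNReal.ofReal_le_ofReal (tp2 h0 h (hu.2.le.trans hv) hm)

lemma sec (μ : Measure ℝ) [SFinite μ] (a m : ℝ) :
    (μ.prod μ) {p : ℝ × ℝ | m ≤ p.1 - p.2 ∧ a ≤ p.2} = ∫⁻ y in Ici a, μ (Ici (y + m)) ∂μ := by
  have hs : MeasurableSet {p : ℝ × ℝ | m ≤ p.1 - p.2 ∧ a ≤ p.2} :=
    (measurableSet_le measurable_const (measurable_fst.sub measurable_snd)).inter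
      (measurableSet_le measurable_const measurable_snd)
  rw [Measure.prod_apply_symm hs, ← lintegral_indicator measurableSet_Ici]
  refine lintegral_congr fun y => ?_
  by_cases hy : a ≤ y
  · rw [indicator_of_mem (mem_Ici.mpr hy)]; congr 1; ext x; simp [hy, le_sub_iff_add_le, add_comm]
  · rw [indicator_of_notMem (by simpa using hy)]; simp [hy]

lemma half (μ : Measure ℝ) [SFinite μ] [NullSingletonClass μ] (a : ℝ) :
    2 * ∫⁻ y in Ici a, μ (Ici y) ∂μ ≤ μ (Ici a) * μ (Ici a) := by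
  have e1 := sec μ a 0
  simp only [add_zero] at e1
  have hs : MeasurableSet {p : ℝ × ℝ | p.1 < p.2 ∧ a ≤ p.1} :=
    (measurableSet_lt measurable_fst measurable_snd).inter
      (measurableSet_le measurable_const measurable_fst)
  have e2 : (μ.prod μ) {p : ℝ × ℝ | p.1 < p.2 ∧ a ≤ p.1} = ∫⁻ y in Ici a, μ (Ici y) ∂μ := by
    rw [Measure.prod_apply hs, ← lintegral_indicator measurableSet_Ici]
    refine lintegral_congr fun y => ?_
    by_cases hy : a ≤ y
    · rw [indicator_of_mem (mem_Ici.mpr hy), ← measure_congr (Ioi_ae_eq_Ici (μ := μ))]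
      congr 1; ext x; simp [hy]
    · rw [indicator_of_notMem (by simpa using hy)]; simp [hy]
  rw [two_mul]
  nth_rewrite 1 [← e1]
  rw [← e2, ← measure_union _ hs, ← Measure.prod_prod]
  · refine measure_mono fun p hp => ?_
    rcases hp with hp | hp
    · exact ⟨by have := hp.1; have := hp.2; simp only [mem_Ici]; linarith, hp.2⟩
    · exact ⟨hp.2, by have := hp.1; have := hp.2; simp only [mem_Ici]; linarith⟩
  · exact disjoint_left.mpr fun p h1 h2 => by have := h1.1; have := h2.1; linarith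

lemma RR {f : ℝ → ℝ} (h0 : ∀ x, 0 ≤ f x) (h : LC f) [IsProbabilityMeasure (mu f)] (a : ℝ) {m : ℝ}
    (hm : 0 ≤ m) :
    2 * ((mu f).prod (mu f)) {p : ℝ × ℝ | m ≤ p.1 - p.2 ∧ a ≤ p.2} ≤
      mu f (Ici (a + m)) * mu f (Ici a) := by
  rw [sec]
  by_cases hz : mu f (Ici a) = 0
  · rw [Measure.restrict_eq_zero.mpr hz]; simp
  refine (ENNReal.mul_le_mul_iff_left hz (measure_ne_top _ _)).mp ?_
  calc _ = 2 * ∫⁻ y in Ici a, mu f (Ici (y + m)) * mu f (Ici a) ∂mu f := by
        rw [lintegral_mul_const' _ _ (measure_ne_top _ _), mul_assoc]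
    _ ≤ 2 * ∫⁻ y in Ici a, mu f (Ici (a + m)) * mu f (Ici y) ∂mu f :=
        mul_le_mul_right (setLIntegral_mono' measurableSet_Ici fun y hy => ifr h0 h hy hm) _
    _ = mu f (Ici (a + m)) * (2 * ∫⁻ y in Ici a, mu f (Ici y) ∂mu f) := by
        rw [lintegral_const_mul' _ _ (measure_ne_top _ _)]; ring
    _ ≤ mu f (Ici (a + m)) * (mu f (Ici a) * mu f (Ici a)) := mul_le_mul_right (half _ _) _
    _ = _ := by ring

lemma mu_neg {f : ℝ → ℝ} : MeasurePreserving (fun x : ℝ => -x) (mu f) (mu fun x => f (-x)) := by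
  refine ⟨measurable_neg, ?_⟩
  ext s hs
  rw [Measure.map_apply measurable_neg hs, mu, mu, withDensity_apply _ hs,
    withDensity_apply _ (measurable_neg hs), ← lintegral_indicator hs,
    ← lintegral_indicator (measurable_neg hs), ← lintegral_neg_eq_self]
  refine lintegral_congr fun x => ?_
  by_cases hx : x ∈ s <;> simp [indicator, hx]

lemma key {f : ℝ → ℝ} (h0 : ∀ x, 0 ≤ f x) (h : LC f) [IsProbabilityMeasure (mu f)] (a : ℝ) {m : ℝ}
    (hm : 0 ≤ m) :
    ((mu f).prod (mu f)) {p : ℝ × ℝ | m ≤ |p.1 - p.2|} ≤ mu f (Iic a) + mu f (Ici (a + m)) := by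
  have r1 := RR h0 h a hm
  have hn : LC fun x => f (-x) := fun x y t t0 t1 => by
    have := h (-x) (-y) t t0 t1
    rwa [show t * -x + (1 - t) * -y = -(t * x + (1 - t) * y) by ring] at this
  have np := mu_neg (f := f)
  have : IsProbabilityMeasure (mu fun x => f (-x)) := by
    rw [← np.map_eq]; exact Measure.isProbabilityMeasure_map measurable_neg.aemeasurable
  have r2 := RR (fun x => h0 (-x)) hn (-(a + m)) hm
  have mp := (np.prod np).comp (Measure.measurePreserving_swap (μ := mu f) (ν := mu f))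
  have hs : MeasurableSet {p : ℝ × ℝ | m ≤ p.1 - p.2 ∧ -(a + m) ≤ p.2} :=
    (measurableSet_le measurable_const (measurable_fst.sub measurable_snd)).inter
      (measurableSet_le measurable_const measurable_snd)
  rw [← mp.measure_preimage hs.nullMeasurableSet,
    ← np.measure_preimage measurableSet_Ici.nullMeasurableSet,
    ← np.measure_preimage measurableSet_Ici.nullMeasurableSet] at r2
  have q1 : (fun x : ℝ => -x) ⁻¹' Ici (-(a + m) + m) = Iic a := by ext x; simp
  have q2 : (fun x : ℝ => -x) ⁻¹' Ici (-(a + m)) = Iic (a + m) := by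
    ext x; simp only [mem_preimage, mem_Ici, mem_Iic, neg_le_neg_iff]
  rw [q1, q2] at r2
  set P := (mu f).prod (mu f) with hP
  have c1 : P {p : ℝ × ℝ | m ≤ p.1 - p.2} ≤ P {p : ℝ × ℝ | m ≤ p.1 - p.2 ∧ a ≤ p.2} +
      mu f (Ici (a + m)) * mu f (Iic a) +
      P ((Prod.map (fun x : ℝ => -x) (fun x : ℝ => -x) ∘ Prod.swap) ⁻¹'
        {p : ℝ × ℝ | m ≤ p.1 - p.2 ∧ -(a + m) ≤ p.2}) := by
    rw [← Measure.prod_prod]
    refine le_trans (measure_mono fun p hp => ?_)
      ((measure_union_le _ _).trans (add_le_add (measure_union_le _ _) le_rfl))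
    have hp' : m ≤ p.1 - p.2 := hp
    by_cases c : a ≤ p.2
    · exact Or.inl (Or.inl ⟨hp, c⟩)
    · by_cases d : a + m ≤ p.1
      · exact Or.inl (Or.inr ⟨d, (not_le.mp c).le⟩)
      · refine Or.inr ⟨?_, ?_⟩
        · show m ≤ -p.2 - -p.1
          linarith
        · show -(a + m) ≤ -p.1
          linarith
  have c2 : P {p : ℝ × ℝ | m ≤ |p.1 - p.2|} ≤ 2 * P {p : ℝ × ℝ | m ≤ p.1 - p.2} := by
    have hs2 : MeasurableSet {p : ℝ × ℝ | m ≤ p.1 - p.2} :=
      measurableSet_le measurable_const (by fun_prop)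
    rw [two_mul]
    nth_rewrite 2 [← (Measure.measurePreserving_swap (μ := mu f) (ν := mu f)).measure_preimage
      hs2.nullMeasurableSet]
    refine le_trans (measure_mono fun p hp => ?_) (measure_union_le _ _)
    rcases le_abs.mp (show m ≤ |p.1 - p.2| from hp) with c | c
    · exact Or.inl c
    · refine Or.inr ?_
      show m ≤ p.2 - p.1
      linarith
  have u : ∀ c, mu f (Ici c) + mu f (Iic c) = 1 := fun c => by
    rw [← measure_congr (Ioi_ae_eq_Ici (μ := mu f)), ← compl_Iic, add_comm,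
      measure_add_measure_compl measurableSet_Iic, measure_univ]
  calc _ ≤ _ := c2
    _ ≤ _ := mul_le_mul_right c1 _
    _ ≤ mu f (Ici (a + m)) * mu f (Ici a) + 2 * (mu f (Ici (a + m)) * mu f (Iic a)) +
        mu f (Iic a) * mu f (Iic (a + m)) := by
        rw [mul_add, mul_add]; exact add_le_add (add_le_add r1 le_rfl) r2
    _ = mu f (Iic a) * (mu f (Ici (a + m)) + mu f (Iic (a + m))) +
        mu f (Ici (a + m)) * (mu f (Ici a) + mu f (Iic a)) := by ring
    _ = _ := by rw [u, u, mul_one, mul_one]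

end Pool.Agent.H.MP_897d6b_pr
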