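import Pool.Agent.H.MP_897d6b_pr.A

set_option autoImplicit false
open MeasureTheory Set Filter Topology Real
open scoped ENNReal

namespace Pool.Agent.H.MP_897d6b_pr

noncomputable def ml (f : ℝ → ℝ) (l : ℝ) : ℝ≥0∞ := volume {x | l ≤ f x}
noncomputable def RE (f : ℝ → ℝ) (t : ℝ) : ℝ≥0∞ :=
  volume {l : ℝ | 0 < l ∧ ENNReal.ofReal t < ml f l}

lemma ml_anti (f : ℝ → ℝ) : Antitone (ml f) := fun _ _ h =>
  measure_mono fun _ hx => h.trans hx

lemma RE_anti (f : ℝ → ℝ) : Antitone (RE f) := fun _ _ h =>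
  measure_mono fun _ hx => ⟨hx.1, (ENNReal.ofReal_le_ofReal h).trans_lt hx.2⟩

lemma RE_le {f : ℝ → ℝ} {M : ℝ} (hM : ∀ x, f x ≤ M) (t : ℝ) : RE f t ≤ ENNReal.ofReal M := by
  refine le_trans (measure_mono (t := Ioc 0 M) fun l hl => ⟨hl.1, ?_⟩) (by simp)
  by_contra hc
  have : {x | l ≤ f x} = ∅ := eq_empty_of_forall_notMem fun x hx =>
    hc (le_trans hx (hM x))
  have h2 := hl.2
  rw [ml, this] at h2
  simp at h2

lemma RE_ge {f : ℝ → ℝ} {l t : ℝ} (h : ENNReal.ofReal t < ml f l) : ENNReal.ofReal l ≤ RE f t := by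
  refine le_trans (by simp) (measure_mono (s := Ioc 0 l) fun u hu => ⟨hu.1, ?_⟩)
  exact h.trans_le (ml_anti f hu.2)

lemma RE_int {f : ℝ → ℝ} (h0 : ∀ x, 0 ≤ f x) (hi : Integrable f) (h1 : ∫ x, f x = 1) :
    ∫⁻ z, RE f |z| ≤ 2 := by
  have mm : Measurable (ml f) := (ml_anti f).measurable
  have hs : MeasurableSet {p : ℝ × ℝ | 0 < p.2 ∧ ENNReal.ofReal |p.1| < ml f p.2} :=
    (measurableSet_lt measurable_const measurable_snd).inter
      (measurableSet_lt (by fun_prop) (mm.comp measurable_snd))
  have e1 := Measure.prod_apply (μ := (volume : Measure ℝ)) (ν := (volume : Measure ℝ)) hs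
  have e2 := Measure.prod_apply_symm (μ := (volume : Measure ℝ)) (ν := (volume : Measure ℝ)) hs
  have e3 := lintegral_eq_lintegral_meas_le volume (ae_of_all _ h0) hi.aemeasurable
  rw [← ofReal_integral_eq_lintegral_ofReal hi (ae_of_all _ h0), h1, ENNReal.ofReal_one] at e3
  calc _ = _ := e1.symm
    _ = _ := e2
    _ ≤ ∫⁻ l in Ioi 0, 2 * ml f l := by
        rw [← lintegral_indicator measurableSet_Ioi]
        refine lintegral_mono fun l => ?_
        by_cases hl : 0 < l
        · rw [indicator_of_mem (mem_Ioi.mpr hl)]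
          by_cases ht : ml f l = ⊤
          · rw [ht]; simp
          · refine le_trans (measure_mono
              (t := Ioo (-(ml f l).toReal) (ml f l).toReal) fun z hz => ?_) ?_
            · exact abs_lt.mp ((ENNReal.ofReal_lt_iff_lt_toReal (abs_nonneg _) ht).mp hz.2)
            · rw [Real.volume_Ioo, sub_neg_eq_add, ENNReal.ofReal_add ENNReal.toReal_nonneg
                ENNReal.toReal_nonneg, ENNReal.ofReal_toReal ht, two_mul]
        · simp [hl]
    _ = 2 := by
        rw [lintegral_const_mul _ mm]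
        simp only [ml]
        rw [← e3, mul_one]

lemma dom {f : ℝ → ℝ} (h0 : ∀ x, 0 ≤ f x) (hi : Integrable f) (h : LC f)
    [IsProbabilityMeasure (mu f)] {M : ℝ} (hM : ∀ x, f x ≤ M) {l : ℝ} (hl : 0 < l) :
    ((mu f).prod (mu f)) {p : ℝ × ℝ | (RE f |p.1 - p.2|).toReal < l} ≤ mu f {x | f x < l} := by
  have mf := meas h0 h
  have ft : ml f l ≠ ⊤ := (hi.measure_ge_lt_top hl).ne
  set m := (ml f l).toReal with hm
  have m0 : 0 ≤ m := ENNReal.toReal_nonneg
  rcases eq_empty_or_nonempty {x | l ≤ f x} with he | hne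
  · have : {x | f x < l} = univ := eq_univ_of_forall fun x => by
      by_contra hc
      have : x ∈ {x | l ≤ f x} := show l ≤ f x from not_lt.mp hc
      rw [he] at this; exact this
    rw [this, measure_univ]; exact prob_le_one
  have dist : ∀ x ∈ {x | l ≤ f x}, ∀ y ∈ {x | l ≤ f x}, x - y ≤ m := by
    intro x hx y hy
    have : volume (Icc y x) ≤ ml f l := measure_mono ((oc h hl).out hy hx)
    rw [Real.volume_Icc] at this
    exact (ENNReal.ofReal_le_iff_le_toReal ft).mp this
  obtain ⟨x0, hx0⟩ := hne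
  have bb : BddBelow {x | l ≤ f x} := ⟨x0 - m, fun y hy => by have := dist _ hx0 _ hy; linarith⟩
  set a := sInf {x | l ≤ f x} with ha
  have lo : ∀ x ∈ {x | l ≤ f x}, a ≤ x := fun x hx => csInf_le bb hx
  have up : ∀ x ∈ {x | l ≤ f x}, x ≤ a + m := fun x hx => by
    have : x - m ≤ a := le_csInf ⟨x0, hx0⟩ fun y hy => by have := dist _ hx _ hy; linarith
    linarith
  calc _ ≤ ((mu f).prod (mu f)) {p : ℝ × ℝ | m ≤ |p.1 - p.2|} := by
        refine measure_mono fun p hp => ?_
        by_contra hc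
        have h1 : |p.1 - p.2| < m := not_le.mp hc
        have h2 := RE_ge ((ENNReal.ofReal_lt_iff_lt_toReal (abs_nonneg _) ft).mpr h1)
        have h3 := (ENNReal.ofReal_le_iff_le_toReal
          (ne_top_of_le_ne_top ENNReal.ofReal_ne_top (RE_le hM _))).mp h2
        exact absurd hp (not_lt.mpr h3)
    _ ≤ _ := key h0 h a m0
    _ = mu f (Iio a ∪ Ioi (a + m)) := by
        rw [measure_union _ measurableSet_Ioi, measure_congr (Ioi_ae_eq_Ici (μ := mu f)),
          measure_congr (Iio_ae_eq_Iic (μ := mu f))]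
        exact disjoint_left.mpr fun x h1 h2 => by
          have := mem_Iio.mp h1; have := mem_Ioi.mp h2; linarith
    _ ≤ _ := by
        refine measure_mono fun x hx => ?_
        by_contra hc
        have hx' : x ∈ {x | l ≤ f x} := show l ≤ f x from not_lt.mp hc
        rcases hx with hx | hx
        · exact absurd (lo x hx') (not_le.mpr hx)
        · exact absurd (up x hx') (not_le.mpr hx)

noncomputable def La (M u : ℝ) : ℝ≥0∞ := volume {s : ℝ | 0 < s ∧ u < M * exp (-s)}

lemma La_meas (M : ℝ) : Measurable (La M) :=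
  Antitone.measurable fun _ _ h => measure_mono fun _ hx => ⟨hx.1, h.trans_lt hx.2⟩

lemma La_pos {M u : ℝ} (hM : 0 < M) (hu : 0 < u) : La M u = ENNReal.ofReal (log (M / u)) := by
  have : {s : ℝ | 0 < s ∧ u < M * exp (-s)} = Ioo 0 (log (M / u)) := by
    ext s
    simp only [mem_ofPred_eq, mem_Ioo]
    rw [lt_log_iff_exp_lt (by positivity), lt_div_iff₀ hu, exp_neg, ← div_eq_mul_inv,
      lt_div_iff₀ (exp_pos _), mul_comm]
  rw [La, this]; simp

lemma La_zero {M : ℝ} (hM : 0 < M) : La M 0 = ⊤ := by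
  have : {s : ℝ | 0 < s ∧ 0 < M * exp (-s)} = Ioi 0 := by
    ext s
    simp only [mem_ofPred_eq, mem_Ioi]
    exact ⟨fun h => h.1, fun h => ⟨h, by positivity⟩⟩
  rw [La, this]; simp

lemma ton {Ω : Type*} [MeasurableSpace Ω] (P : Measure Ω) [SFinite P] {A : Ω → ℝ}
    (hA : Measurable A) (M : ℝ) :
    ∫⁻ w, La M (A w) ∂P = ∫⁻ s in Ioi 0, P {w | A w < M * exp (-s)} := by
  have hs : MeasurableSet {p : Ω × ℝ | 0 < p.2 ∧ A p.1 < M * exp (-p.2)} :=
    (measurableSet_lt measurable_const measurable_snd).inter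
      (measurableSet_lt (hA.comp measurable_fst) (by fun_prop))
  have e1 := Measure.prod_apply (μ := P) (ν := (volume : Measure ℝ)) hs
  have e2 := Measure.prod_apply_symm (μ := P) (ν := (volume : Measure ℝ)) hs
  refine e1.symm.trans (e2.trans ?_)
  rw [← lintegral_indicator measurableSet_Ioi]
  refine lintegral_congr fun s => ?_
  by_cases h : 0 < s
  · rw [indicator_of_mem (mem_Ioi.mpr h)]; congr 1; ext w; simp [h]
  · simp [h]

lemma law {f : ℝ → ℝ} (h0 : ∀ x, 0 ≤ f x) (hi : Integrable f) (mf : Measurable f) {M : ℝ}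
    (hM : ∀ x, f x ≤ M) {φ : ℝ → ℝ≥0∞} (hφ : Measurable φ) :
    ∫⁻ z, ENNReal.ofReal (∫ y, f (z + y) * f y) * φ z =
      ∫⁻ p : ℝ × ℝ, φ (p.1 - p.2) ∂((mu f).prod (mu f)) := by
  have e : ∀ z, ENNReal.ofReal (∫ y, f (z + y) * f y) * φ z =
      ∫⁻ y, ENNReal.ofReal (f (z + y)) * ENNReal.ofReal (f y) * φ z := by
    intro z
    have i : Integrable fun y => f (z + y) * f y := by
      refine (hi.const_mul M).mono' (by fun_prop) (ae_of_all _ fun y => ?_)
      rw [Real.norm_of_nonneg (mul_nonneg (h0 _) (h0 _))]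
      exact mul_le_mul_of_nonneg_right (hM _) (h0 _)
    rw [ofReal_integral_eq_lintegral_ofReal i (ae_of_all _ fun y => mul_nonneg (h0 _) (h0 _)),
      ← lintegral_mul_const _ (by fun_prop)]
    simp only [ENNReal.ofReal_mul (h0 _)]
  simp only [e]
  rw [lintegral_lintegral_swap (by fun_prop), mu, prod_withDensity (by fun_prop) (by fun_prop),
    lintegral_withDensity_eq_lintegral_mul _ (by fun_prop) (by fun_prop),
    lintegral_prod_symm _ (by fun_prop)]
  refine lintegral_congr fun y => ?_
  rw [← lintegral_sub_right_eq_self _ y]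
  simp

lemma nml_le {y : ℝ} (hy : 0 ≤ y) : negMulLog y ≤ 2 * √y := by
  rcases hy.eq_or_lt with rfl | hy'
  · simp
  have s := sqrt_pos.mpr hy'
  have a := log_le_sub_one_of_pos (inv_pos.mpr s)
  rw [log_inv, log_sqrt hy] at a
  have e : y * (√y)⁻¹ = √y := by
    field_simp; exact (sq_sqrt hy).symm
  unfold negMulLog
  nlinarith [mul_le_mul_of_nonneg_left a hy]

lemma nml_ge {y M : ℝ} (hy : 0 ≤ y) (hM : y ≤ M) : -(y * log M) ≤ negMulLog y := by
  rcases hy.eq_or_lt with rfl | hy'
  · simp
  have := mul_le_mul_of_nonneg_left (log_le_log hy' hM) hy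
  unfold negMulLog
  linarith

lemma sand {u lo hi : ℝ → ℝ} (mu : Measurable u) (il : Integrable lo) (ih : Integrable hi)
    (h1 : ∀ x, lo x ≤ u x) (h2 : ∀ᵐ x, u x ≤ hi x) : Integrable u := by
  refine (il.abs.add ih.abs).mono' mu.aestronglyMeasurable ?_
  filter_upwards [h2] with x hx
  rw [Real.norm_eq_abs, abs_le]
  have := h1 x
  have := neg_abs_le (lo x)
  have := le_abs_self (hi x)
  have := abs_nonneg (lo x)
  have := abs_nonneg (hi x)
  simp only [Pi.add_apply]
  constructor <;> linarith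

theorem main {f : ℝ → ℝ} (h0 : ∀ x, 0 ≤ f x) (hi : Integrable f) (h1 : ∫ x, f x = 1) (h : LC f) :
    ∫ z, negMulLog (∫ y, f (z + y) * f y) ≤ (∫ x, negMulLog (f x)) + log 2 := by
  have mf := meas h0 h
  obtain ⟨isq, M, M0, hM⟩ := basic h0 hi h1 h
  have := mu_prob h0 hi h1
  set g : ℝ → ℝ := fun z => ∫ y, f (z + y) * f y with hg
  have mg : Measurable g :=
    (StronglyMeasurable.integral_prod_right (f := fun z y => f (z + y) * f y)
      (Measurable.stronglyMeasurable (by fun_prop))).measurable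
  have g0 : ∀ z, 0 ≤ g z := fun z => integral_nonneg fun y => mul_nonneg (h0 _) (h0 _)
  have gM : ∀ z, g z ≤ M := fun z => by
    have := integral_mono_of_nonneg (μ := volume) (f := fun y => f (z + y) * f y)
      (g := fun y => M * f y) (ae_of_all _ fun y => mul_nonneg (h0 _) (h0 _)) (hi.const_mul M)
      (ae_of_all _ fun y => mul_le_mul_of_nonneg_right (hM _) (h0 _))
    rwa [integral_const_mul, h1, mul_one] at this
  have g1 : ∫⁻ z, ENNReal.ofReal (g z) = 1 := by
    have := law h0 hi mf hM (φ := fun _ => 1) measurable_const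
    simpa using this
  have ig : Integrable g := (lintegral_ofReal_ne_top_iff_integrable mg.aestronglyMeasurable
    (ae_of_all _ g0)).mp (by rw [g1]; exact ENNReal.one_ne_top)
  have eg : ∫ z, g z = 1 := by
    rw [integral_eq_lintegral_of_nonneg_ae (ae_of_all _ g0) mg.aestronglyMeasurable, g1]; rfl
  set r : ℝ → ℝ := fun z => (RE f |z|).toReal with hr
  have mR : Measurable fun z : ℝ => RE f |z| := (RE_anti f).measurable.comp measurable_abs
  have mr : Measurable r := mR.ennreal_toReal
  have r0 : ∀ z, 0 ≤ r z := fun z => ENNReal.toReal_nonneg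
  have rf : ∀ z : ℝ, RE f |z| ≠ ⊤ := fun z => ne_top_of_le_ne_top ENNReal.ofReal_ne_top (RE_le hM _)
  have rM : ∀ z, r z ≤ M := fun z => ENNReal.toReal_le_of_le_ofReal M0.le (RE_le hM _)
  have r2 : ∫⁻ z, ENNReal.ofReal (r z) ≤ 2 := by
    simp only [hr, ENNReal.ofReal_toReal (rf _)]
    exact RE_int h0 hi h1
  have ir : Integrable r := (lintegral_ofReal_ne_top_iff_integrable mr.aestronglyMeasurable
    (ae_of_all _ r0)).mp (ne_top_of_le_ne_top (by norm_num) r2)
  have er : ∫ z, r z ≤ 2 := by
    rw [integral_eq_lintegral_of_nonneg_ae (ae_of_all _ r0) mr.aestronglyMeasurable]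
    exact ENNReal.toReal_le_of_le_ofReal (by norm_num) (by simpa using r2)
  have mn : Measurable negMulLog := continuous_negMulLog.measurable
  have inf : Integrable fun x => negMulLog (f x) :=
    sand (mn.comp mf) (hi.mul_const (log M)).neg (isq.const_mul 2)
      (fun x => nml_ge (h0 x) (hM x)) (ae_of_all _ fun x => nml_le (h0 x))
  have iF : Integrable fun x => f x * log M + negMulLog (f x) := (hi.mul_const _).add inf
  have F0 : ∀ x, 0 ≤ f x * log M + negMulLog (f x) := fun x => by
    have := nml_ge (h0 x) (hM x); linarith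
  have b1 : ∫⁻ x, La M (f x) ∂mu f = ENNReal.ofReal (log M + ∫ x, negMulLog (f x)) := by
    have : ∫ x, (f x * log M + negMulLog (f x)) = log M + ∫ x, negMulLog (f x) := by
      rw [integral_add (hi.mul_const _) inf, integral_mul_const, h1, one_mul]
    rw [← this, ofReal_integral_eq_lintegral_ofReal iF (ae_of_all _ F0), mu,
      lintegral_withDensity_eq_lintegral_mul _ mf.ennreal_ofReal
        (show Measurable fun x => La M (f x) from (La_meas M).comp mf)]
    refine lintegral_congr fun x => ?_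
    rcases (h0 x).eq_or_lt with e | e
    · simp [← e]
    · simp only [Pi.mul_apply]
      rw [La_pos M0 e, ← ENNReal.ofReal_mul (h0 x), log_div M0.ne' e.ne']
      congr 1; unfold negMulLog; ring
  have b0 : 0 ≤ log M + ∫ x, negMulLog (f x) := by
    have := integral_nonneg (μ := volume) (f := fun x => f x * log M + negMulLog (f x)) F0
    rwa [integral_add (hi.mul_const _) inf, integral_mul_const, h1, one_mul] at this
  have b2 : ∫⁻ z, ENNReal.ofReal (g z) * La M (r z) ≤
      ENNReal.ofReal (log M + ∫ x, negMulLog (f x)) := by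
    have l := law h0 hi mf hM (φ := fun z => La M (r z)) ((La_meas M).comp mr)
    have := ton ((mu f).prod (mu f)) (A := fun p : ℝ × ℝ => r (p.1 - p.2)) (by fun_prop) M
    rw [l, ← b1, ton _ mf, this]
    exact setLIntegral_mono' measurableSet_Ioi fun s _ => dom h0 hi h hM (by positivity)
  have ae1 : ∀ᵐ z, g z = 0 ∨ 0 < r z := by
    have := ae_lt_top (f := fun z => ENNReal.ofReal (g z) * La M (r z))
      (mg.ennreal_ofReal.mul ((La_meas M).comp mr)) (ne_top_of_le_ne_top ENNReal.ofReal_ne_top b2)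
    filter_upwards [this] with z hz
    by_contra hc
    push Not at hc
    have e : r z = 0 := le_antisymm hc.2 (r0 z)
    rw [e, La_zero M0, ENNReal.mul_top] at hz
    · exact lt_irrefl _ hz
    · simpa using lt_of_le_of_ne (g0 z) (Ne.symm hc.1)
  set G : ℝ → ℝ := fun z => g z * log (M / r z) with hG
  have mG : Measurable G := by simp only [hG]; fun_prop
  have G0 : 0 ≤ᵐ[volume] G := by
    filter_upwards [ae1] with z hz
    rcases hz with e | e
    · simp [hG, e]
    · exact mul_nonneg (g0 z) (log_nonneg ((one_le_div e).mpr (rM z)))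
  have b3 : ∫⁻ z, ENNReal.ofReal (G z) ≤ ENNReal.ofReal (log M + ∫ x, negMulLog (f x)) := by
    refine le_trans (le_of_eq (lintegral_congr_ae ?_)) b2
    filter_upwards [ae1] with z hz
    rcases hz with e | e
    · simp [hG, e]
    · rw [La_pos M0 e, ← ENNReal.ofReal_mul (g0 z)]
  have iG : Integrable G := (lintegral_ofReal_ne_top_iff_integrable mG.aestronglyMeasurable
    G0).mp (ne_top_of_le_ne_top ENNReal.ofReal_ne_top b3)
  have eG : ∫ z, G z ≤ log M + ∫ x, negMulLog (f x) := by
    rw [integral_eq_lintegral_of_nonneg_ae G0 mG.aestronglyMeasurable]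
    exact ENNReal.toReal_le_of_le_ofReal b0 b3
  have pw : ∀ᵐ z, negMulLog (g z) ≤ G z + g z * (log 2 - log M - 1) + r z / 2 := by
    filter_upwards [ae1] with z hz
    rcases (g0 z).eq_or_lt with e | e
    · have := r0 z
      simp only [hG, ← e]; simp; linarith
    rcases hz with e' | e'
    · exact absurd e' e.ne'
    have a := log_le_sub_one_of_pos (show 0 < r z / 2 / g z by positivity)
    rw [log_div (by positivity) e.ne', log_div e'.ne' (by norm_num)] at a
    have b := mul_le_mul_of_nonneg_left a e.le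
    have c : g z * (r z / 2 / g z - 1) = r z / 2 - g z := by field_simp
    simp only [hG]
    rw [log_div M0.ne' e'.ne']
    unfold negMulLog
    nlinarith
  have j1 : Integrable fun z => G z + g z * (log 2 - log M - 1) := iG.add (ig.mul_const _)
  have j2 : Integrable fun z => G z + g z * (log 2 - log M - 1) + r z / 2 :=
    j1.add (ir.div_const 2)
  have ing : Integrable fun z => negMulLog (g z) :=
    sand (mn.comp mg) (ig.mul_const (log M)).neg j2 (fun x => nml_ge (g0 x) (gM x)) pw
  have fin := integral_mono_ae ing j2 pw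
  rw [integral_add j1 (ir.div_const 2), integral_add iG (ig.mul_const _), integral_mul_const,
    integral_div, eg] at fin
  linarith

end Pool.Agent.H.MP_897d6b_pr
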